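import Pool.Agent.Lib_helper6.PHR.StageB
import Pool.Agent.Lib_helper37.HDH.Num

/-!
# The second oracle with an infinite polynomial hierarchy (MP_5c38ab_lc)
-/

set_option autoImplicit false

namespace Pool.Agent.PHR

open Pool.Agent.CK Pool.Agent.PHS Pool.Agent.RF

theorem SL_ne_infinite {O : Lang} (h : ∀ p : ℕ × List ℕ, ∃ m, PHW (p.1 + 1, p.2) m O) :
    ∀ k, ∃ L, InSig O (k + 1) L ∧ ¬ InSig O k L := by
  intro k
  by_contra hcon
  push Not at hcon
  obtain ⟨Q, hQ1, hQ2⟩ := up (2 * (k + 1))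
  obtain ⟨B, hB, hL⟩ := hQ1 O
  have hB2 : InSig O (k + (k + 2)) B := by
    have e : k + (k + 2) = 2 * (k + 1) := by ring
    rw [e]
    exact hB
  have hB3 := sig_collapse O k hcon (k + 2) B hB2
  obtain ⟨t, ht⟩ := exists_SL O (k + 1) (Q O) ⟨B, hB3, hL⟩
  obtain ⟨m, hm⟩ := h (k, t)
  apply hm
  show SL (k + 1) t O (wd (k + 1) m) = true ↔ _
  rw [ht]
  exact hQ2 O m (slt (k + 1) m)

theorem QB_local2 {c s N : ℕ} {n : ℕ → ℕ} (hN : LB c s (n s) < N) {O O' : Lang}
    (h : Agree (sl N) O O') (hQ : QB c n s O) : QB c n s O' := by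
  have hb : n s < LB c s (n s) := by unfold LB sl; omega
  have h1 : TotB (n s) O ↔ TotB (n s) O' := by
    unfold TotB
    refine forall_congr' fun u => forall_congr' fun hu => ?_
    rw [V_congr (O := O') (O' := O)]
    intro w hw
    apply h
    unfold sl
    omega
  have h2 : ∀ O1 O2 : Lang, Agree (sl N) O1 O2 →
      ShortB s.unpair.1 s.unpair.2 (NN c (n s)) O1 →
      ShortB s.unpair.1 s.unpair.2 (NN c (n s)) O2 := by
    intro O1 O2 h12 hS
    obtain ⟨Q, -, hQl, hQs⟩ := short_queries hS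
    apply hQs
    intro q hq
    refine (h12 q ?_).symm
    have := hQl q hq
    unfold sl
    omega
  unfold QB at hQ ⊢
  rw [← h1, hQ, not_iff_not]
  exact ⟨h2 O O' h, h2 O' O fun x hx => (h x hx).symm⟩

theorem PHW_local {p : ℕ × List ℕ} {E N m : ℕ} (hE : EProp p E)
    (h1 : ((wd p.1 m).length + 2) ^ E < sl N) (h2 : (2 * p.1 + 1) * m < N) {O O' : Lang}
    (h : Agree (sl N) O O') (hQ : PHW p m O) : PHW p m O' := by
  unfold PHW at hQ ⊢
  have e1 : SL p.1 p.2 O (wd p.1 m) = SL p.1 p.2 O' (wd p.1 m) :=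
    hE O O' _ fun w hw => h w (by omega)
  rw [← e1]
  rw [← alt_congr (f := fun a => ¬ ∃ l' : List Bool,
    a.length + l'.length = (slt p.1 m).length ∧
    O (saddr (slt p.1 m) (a ++ l') true) = true)]
  · exact hQ
  · intro a _
    refine not_congr (exists_congr fun l' => and_congr_right fun hl => ?_)
    rw [h]
    rw [saddr_length (by rw [List.length_append]; exact hl.symm), slt_length]
    unfold sl
    omega

/-- bound for the lengths in the stage `t` -/
def WP (E E' : ℕ × List ℕ → ℕ) (t m : ℕ) : ℕ :=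
  m ^ (4 * E (rq (t / 2))) +
    (m + (2 * ((rq (t / 2)).1 + 1) + 1) * m + 1 + 2) ^ E' (rq (t / 2)) +
    (2 * ((rq (t / 2)).1 + 1) + 1) * m

/-- the requirements on the sequence of levels -/
structure SeqPB (c : ℕ) (E M E' : ℕ × List ℕ → ℕ) (n : ℕ → ℕ) : Prop where
  mono : StrictMono n
  b1 : ∀ t, (LB c (t / 2) (n t) + 2) ^ 8 < 2 ^ n t
  b2 : ∀ t, LB c (t / 2) (n t) < n (t + 1)
  p1 : ∀ t, (WP E E' t (n t) + 2) ^ 8 < 2 ^ n t
  p2 : ∀ t, WP E E' t (n t) < n (t + 1)
  M : ∀ t, M (rq (t / 2)) + 3 ≤ n t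
  k : ∀ t, 2 * ((rq (t / 2)).1 + 1) + 1 ≤ n t

theorem exists_seqPB (c : ℕ) (E M E' : ℕ × List ℕ → ℕ) : ∃ n, SeqPB c E M E' n := by
  have hWP : ∀ t, SEQ_PB (fun m => WP E E' t m) := fun t =>
    SEQ_add (SEQ_add (SEQ_pow SEQ_id _)
      (SEQ_pow (SEQ_add (SEQ_add (SEQ_add SEQ_id (SEQ_mul (SEQ_const _) SEQ_id)) (SEQ_const 1))
        (SEQ_const 2)) _)) (SEQ_mul (SEQ_const _) SEQ_id)
  obtain ⟨n, h1, h2⟩ := SEQ_gen
    (P := fun t m => (LB c (t / 2) m + 2) ^ 8 < 2 ^ m ∧ (WP E E' t m + 2) ^ 8 < 2 ^ m ∧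
      M (rq (t / 2)) + 3 ≤ m ∧ 2 * ((rq (t / 2)).1 + 1) + 1 ≤ m)
    (fun t => (SEQ_lt (SEQ_pow (SEQ_add (SEQ_LB c (t / 2)) (SEQ_const 2)) 8)).and
      ((SEQ_lt (SEQ_pow (SEQ_add (hWP t) (SEQ_const 2)) 8)).and
      ((Filter.eventually_ge_atTop _).and (Filter.eventually_ge_atTop _))))
    (fun t m => LB c (t / 2) m + WP E E' t m)
  refine ⟨n, h1, fun t => (h2 t).1.1, fun t => ?_, fun t => (h2 t).1.2.1, fun t => ?_,
    fun t => (h2 t).1.2.2.1, fun t => (h2 t).1.2.2.2⟩
  · have := (h2 t).2; omega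
  · have := (h2 t).2; omega

/-- the goal of stage `t` -/
def QPB (c : ℕ) (n : ℕ → ℕ) (t : ℕ) (O : Lang) : Prop :=
  (t % 2 = 0 → QB c (fun s => n (2 * s)) (t / 2) O) ∧
    (t % 2 = 1 → PHW ((rq (t / 2)).1 + 1, (rq (t / 2)).2) (n t) O)

/-- the facts about the oracle that are used -/
theorem FNBP_oracle (dh : DepthHierarchy) : ∃ (c : ℕ) (n : ℕ → ℕ) (O : Lang),
    (∀ u : List Bool, Nat.size (val (pEnc [wit u])) ≤ NN c u.length ∧
      Nat.size e0 ≤ NN c u.length ∧ Nat.size (val u) ≤ NN c u.length ∧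
      Nat.size (zz u.length) ≤ NN c u.length) ∧
    (∀ s, QB c n s O) ∧
    (∀ s, O (true :: false :: s) = true ↔ CodeB O s) ∧
    (∀ s, O (true :: true :: false :: s) = true ↔ BaseP (gap n) O s) ∧
    (∀ s, O (true :: true :: true :: s) = true ↔ ThirdB n s) ∧
    ∀ k, ∃ L, InSig O (k + 1) L ∧ ¬ InSig O k L := by
  obtain ⟨c, hc⟩ := wit_len
  obtain ⟨E, M, E', hE, hM, hE'⟩ := exists_constsB dh
  obtain ⟨n, hn⟩ := exists_seqPB c E M E'
  set n' : ℕ → ℕ := fun s => n (2 * s) with hn'
  have hmono' : StrictMono n' := fun a b hab => hn.mono (by omega)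
  have hSB : SeqB c n' := by
    refine ⟨hmono', fun s => ⟨?_, ?_⟩⟩
    · have h1 := hn.b1 (2 * s)
      rw [show 2 * s / 2 = s by omega] at h1
      exact h1
    · have h1 := hn.b2 (2 * s)
      rw [show 2 * s / 2 = s by omega] at h1
      have h2 : n (2 * s + 1) < n (2 * (s + 1)) := hn.mono (by omega)
      exact h1.trans h2
  have hb : StrictMono (fun t => sl (n t)) := by
    intro a b hab
    have := hn.mono hab
    simp only [sl]
    omega
  obtain ⟨Y, hY⟩ := stage_lemma (RB_local n') (fun t => sl (n t)) hb (QPB c n)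
    (fun t O O' h hQ => by
      refine ⟨fun ht => ?_, fun ht => ?_⟩
      · refine QB_local2 (N := n (t + 1)) ?_ h (hQ.1 ht)
        show LB c (t / 2) (n (2 * (t / 2))) < n (t + 1)
        rw [show 2 * (t / 2) = t by omega]
        exact hn.b2 t
      · have h1 := hn.p2 t
        unfold WP at h1
        refine PHW_local (p := ((rq (t / 2)).1 + 1, (rq (t / 2)).2)) (hE' (rq (t / 2)))
          ?_ ?_ h (hQ.2 ht)
        · show ((wd ((rq (t / 2)).1 + 1) (n t)).length + 2) ^ E' (rq (t / 2)) < sl (n (t + 1))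
          rw [wd_length]
          unfold sl
          omega
        · show (2 * ((rq (t / 2)).1 + 1) + 1) * n t < n (t + 1)
          omega)
    (fun t Y hY => by
      rcases Nat.mod_two_eq_zero_or_one t with ht | ht
      · have e : 2 * (t / 2) = t := by omega
        obtain ⟨Y', h1, h2, h3⟩ := stageB hSB (t / 2) Y (by
          intro x hx
          apply hY x
          have hx2 : sl (n (2 * (t / 2))) ≤ x.length := hx
          rwa [e] at hx2)
        have h1' : Agree (sl (n t)) Y Y' := by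
          have h1'' : Agree (sl (n (2 * (t / 2)))) Y Y' := h1
          rwa [e] at h1''
        set Y'' : Lang := fun x => if x.length < sl (n (t + 1)) then Y' x else false with hY''
        have hag : Agree (sl (n (t + 1))) Y' Y'' := by
          intro x hx
          rw [hY'']
          simp only [if_pos hx]
        refine ⟨Y'', ?_, ?_, ?_, fun h => ?_⟩
        · intro x hx
          have hlt : n t < n (t + 1) := hn.mono (Nat.lt_succ_self t)
          have hx2 : x.length < sl (n t) := hx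
          rw [h1' x hx, hag x (by unfold sl at *; omega)]
        · intro x hx
          have hx2 : ¬ x.length < sl (n (t + 1)) := by
            have : sl (n (t + 1)) ≤ x.length := hx
            omega
          rw [hY'']
          simp only [if_neg hx2]
        · intro _
          refine QB_local2 (N := n (t + 1)) ?_ (mkO_agree (RB_local n') hag) h3
          show LB c (t / 2) (n (2 * (t / 2))) < n (t + 1)
          rw [e]
          exact hn.b2 t
        · omega
      · obtain ⟨s, rfl⟩ : ∃ s, t = 2 * s + 1 := ⟨t / 2, by omega⟩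
        have e : (2 * s + 1) / 2 = s := by omega
        have hk := hn.k (2 * s + 1)
        have hM' := hn.M (2 * s + 1)
        have hp1 := hn.p1 (2 * s + 1)
        have hp2 := hn.p2 (2 * s + 1)
        have hW0 : (2 * ((rq ((2 * s + 1) / 2)).1 + 1) + 1) * n (2 * s + 1) ≤
          WP E E' (2 * s + 1) (n (2 * s + 1)) := by unfold WP; omega
        have hW1 : n (2 * s + 1) ^ (4 * E (rq ((2 * s + 1) / 2))) ≤
          WP E E' (2 * s + 1) (n (2 * s + 1)) := by unfold WP; omega
        rw [e] at hk hM' hW0 hW1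
        have hlt : n (2 * s) < n (2 * s + 1) := hn.mono (by omega)
        obtain ⟨Y', h1, h2, h3⟩ := stagePB (p := rq s) (hE (rq s)) (hM (rq s)) hmono' (s := s)
          (m := n (2 * s + 1)) (N := n (2 * s + 1 + 1)) (W := WP E E' (2 * s + 1) (n (2 * s + 1)))
          hlt.le (by
            show WP E E' (2 * s + 1) (n (2 * s + 1)) < sl (n (2 * (s + 1)))
            rw [show 2 * (s + 1) = 2 * s + 1 + 1 by ring]
            unfold sl
            omega) hW1 hp1 (by omega) (by omega) hk (by omega) Y hY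
        refine ⟨Y', h1, h2, fun h => ?_, fun _ => ?_⟩
        · omega
        · rw [e]
          exact h3)
  refine ⟨c, n', mkO (RB n') Y, hc, fun s => ?_, fun s => ?_, fun s => ?_, fun s => ?_, ?_⟩
  · have h1 := (hY (2 * s)).1 (by omega)
    rwa [show 2 * s / 2 = s by omega] at h1
  · rw [mkO_eq (RB_local n') Y (true :: false :: s)]
    simp [RB, reg]
  · rw [mkO_eq (RB_local n') Y (true :: true :: false :: s)]
    simp [RB, reg]
  · rw [mkO_eq (RB_local n') Y (true :: true :: true :: s)]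
    simp [RB, reg]
  · apply SL_ne_infinite
    intro p
    have h1 := (hY (2 * Encodable.encode p + 1)).2 (by omega)
    rw [show (2 * Encodable.encode p + 1) / 2 = Encodable.encode p by omega, rq_encode] at h1
    exact ⟨_, h1⟩

theorem finalBPH (dh : DepthHierarchy) : ∃ O : Lang,
    (∀ k, ∃ L, InSig O (k + 1) L ∧ ¬ InSig O k L) ∧
    (∃ B, Base O B ∧ ∀ σ, S12 σ → B σ) ∧ ∀ B, Base O B →
    (∃ S, InT O B S ∧ ∀ T, InT O B T → PolyBounded O S (Con T)) ∧
    ∀ S, InT O B S → ∃ T, InT O B T ∧ ¬ PolyBounded O S (RFN T) := by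
  obtain ⟨c, n, O, hc, hQ, hC, hP, hE, hph⟩ := FNBP_oracle dh
  refine ⟨O, hph, base_exists hP, fun B hB => ⟨?_, fun S hS => ?_⟩⟩
  · refine S_exists hB Con ?_ ?_ Con_len
    · intro σ hσ
      rw [hC] at hσ
      obtain ⟨T, m, k, h1, -, -, h4⟩ := hσ
      have h5 : σ = pad m (Con T k) := by
        refine (enc_inj (a := []) (b := []) ?_).1
        rw [List.append_nil, List.append_nil, h1]
      subst h5
      refine ⟨(pad_closed _ _).2 (closed_Con _ _), (pad_true _ _ _).2 ?_⟩
      intro v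
      exact (holds_Con O v T k).2 (h4 k le_rfl)
    · intro T hT
      obtain ⟨C, hC'⟩ := FNB_poly (T.2 + 2) (idx T)
      refine ⟨C, fun k => ⟨Dep T.2 k + idx T, ?_, ?_⟩⟩
      · have h1 := dep_poly T.2 k
        have h2 := hC' k
        omega
      · rw [hC]
        exact ⟨T, Dep T.2 k + idx T, k, rfl, by omega, by omega, fun k' _ => inT_conT hT k'⟩
  · obtain ⟨TB, hTB1, hTB2⟩ := hB.dec
    obtain ⟨j, hj⟩ := thp_surj (TB, S)
    have hj1 : (thp j).1 = TB := by rw [hj]
    have hj2 : (thp j).2 = S := by rw [hj]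
    have hTJ1 : (TJ j).1 = orAsk (tauB j) TB.1 := by simp [TJ, hj1]
    have hTJ2 : (TJ j).2 = exAsk (tauB j) TB.2 := by simp [TJ, hj1]
    have htau : ∀ x : List Bool, tauB j ++ x = true :: true :: true :: (tag j ++ x) := by
      intro x; simp [tauB]
    -- the axioms of the theory
    have hAx : ∀ σ, Ax O (TJ j) σ ↔ ThirdB n (tag j ++ σ.enc) ∨ B σ := by
      intro σ
      unfold Ax
      rw [hTJ1, hTJ2, (orAsk_spec hTB1 σ.enc).2, htau, hE]
      have h1 := hTB2 σ
      unfold Ax at h1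
      rw [h1]
    -- totality
    have hTot : ∀ t : ℕ, t.unpair.1 = j → TotB (n t) O := by
      intro t ht
      by_contra hcon
      have hS1 : ShortB t.unpair.1 t.unpair.2 (NN c (n t)) O := by
        by_contra hns
        exact hcon ((hQ t).2 hns)
      rw [ht] at hS1
      obtain ⟨l, hl, -⟩ := hS1
      rw [hj2] at hl
      unfold TotB at hcon
      push Not at hcon
      obtain ⟨u, hu, hV⟩ := hcon
      have hV' : V O u = false := by
        cases h : V O u with
        | false => rfl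
        | true => exact absurd h hV
      have hO : O (tauB j ++ (wit u).enc) = true := by
        rw [htau, hE]
        exact ⟨j, t, u, rfl, ht, hu⟩
      obtain ⟨w1, w2, w3, w4⟩ := hc u
      rw [hu] at w1 w2 w3 w4
      rw [← hu] at hl
      have hne : ¬ RfnT O (TJ j) (NN c u.length) :=
        not_rfnT_TJ hO hV' (by rw [hu]; exact w1) (by rw [hu]; exact w2) (by rw [hu]; exact w3)
          (by rw [hu] at *; exact w4)
      have hnt : ¬ (RFN (TJ j) (NN c u.length)).True O := fun h =>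
        hne ((holds_RFN O (fun _ => 0) _ _).1 (h _))
      have hp1 : Provable (Ax O S) (.neg (RFN (TJ j) (NN c u.length))) :=
        prv_mono hS.ext (hB.refRFN _ _ hnt)
      have hp2 : Provable (Ax O S) (RFN (TJ j) (NN c u.length)) := ⟨l, hl⟩
      exact hS.cons (prv_bot hp2 hp1)
    -- the axioms are closed and true
    have hwit : ∀ σ : Fm, ThirdB n (tag j ++ σ.enc) → ∃ u, σ = wit u ∧ V O u = true := by
      rintro σ ⟨j', t, u, h1, h2, h3⟩
      obtain ⟨h4, h5⟩ := FNB_tag h1
      have h6 : σ = wit u := by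
        refine (enc_inj (a := []) (b := []) ?_).1
        rw [List.append_nil, List.append_nil, h5]
      exact ⟨u, h6, hTot t (by rw [h2, ← h4]) u h3⟩
    have htrue : ∀ σ, Ax O (TJ j) σ → σ.True O := by
      intro σ hσ
      rcases (hAx σ).1 hσ with h | h
      · obtain ⟨u, rfl, hu⟩ := hwit σ h
        intro v
        exact (holds_mu O v _ _ _).2 ((MuT_wit O u).2 hu)
      · exact hB.isTrue σ h
    refine ⟨TJ j, ⟨?_, ?_, ?_, ?_⟩, ?_⟩
    · intro x
      rw [hTJ1, hTJ2]
      exact (orAsk_spec hTB1 x).1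
    · intro σ hσ
      exact (hAx σ).2 (Or.inr hσ)
    · intro σ hσ
      rcases (hAx σ).1 hσ with h | h
      · obtain ⟨u, rfl, -⟩ := hwit σ h
        exact closed_mu _ _ _
      · exact hB.closed σ h
    · intro hF
      have h1 := sound htrue hF (fun _ => 0)
      exact h1 rfl
    · rintro ⟨a, ha⟩
      have h1 : (Nat.pair j a).unpair.1 = j := by rw [Nat.unpair_pair]
      have h2 : (Nat.pair j a).unpair.2 = a := by rw [Nat.unpair_pair]
      have h3 := hTot _ h1
      have h4 := (hQ (Nat.pair j a)).1 h3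
      apply h4
      rw [h1, h2]
      obtain ⟨l, hl1, hl2⟩ := ha (NN c (n (Nat.pair j a)))
      exact ⟨l, by rw [hj2]; exact hl1, hl2⟩

theorem finalBP : ∃ O : Lang, (∀ k, ∃ L, InSig O (k + 1) L ∧ ¬ InSig O k L) ∧
    (∃ B, Base O B ∧ ∀ σ, S12 σ → B σ) ∧ ∀ B, Base O B →
    (∃ S, InT O B S ∧ ∀ T, InT O B T → PolyBounded O S (Con T)) ∧
    ∀ S, InT O B S → ∃ T, InT O B T ∧ ¬ PolyBounded O S (RFN T) :=
  finalBPH Pool.Agent.HDH.dh

end Pool.Agent.PHR
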