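import Pool.Agent.Lib_helper78.RF.F.FNA
import Pool.Agent.Lib_helper74.PHS.Glue

/-!
# Stages for two kinds of requirements (MP_5c38ab_lc)

The oracle `A` of `Lib_helper78/RF` with stages which also diagonalize against the levels of the
polynomial hierarchy.
-/

set_option autoImplicit false

namespace Pool.Agent.PHR

open Pool.Agent.CK Pool.Agent.PHS Pool.Agent.RF

/-! ### requirements -/

/-- the requirement with a given number: a level and an index list -/
def rq (r : ℕ) : ℕ × List ℕ := (Encodable.decode r).getD (0, [])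

theorem rq_encode (p : ℕ × List ℕ) : rq (Encodable.encode p) = p := by
  unfold rq
  rw [Encodable.encodek]
  rfl

/-- the conclusion of `PHS.kill` -/
def KProp (p : ℕ × List ℕ) (C m0 : ℕ) : Prop := ∀ m ≥ m0,
    ∀ x : List Bool, x.length ≤ m ^ 2 → ∀ F : (List (X m) → Bool) → Lang,
    (∀ w : List Bool, w.length < m ^ C → CertC (m ^ C) (fun v => F v w)) →
    (∀ (v : List (X m) → Bool) (l : List (X m)), l.length = 2 * p.1 + 1 →
      (v l = true ↔ ¬ ∃ l' : List Bool, (flat l).length + l'.length = x.length ∧
        F v (saddr x (flat l ++ l') true) = true)) →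
    ∃ v : List (X m) → Bool, ¬ (SL p.1 p.2 (F v) (ones m ++ false :: x) = true ↔
      alt (2 * p.1 + 1) m (fun a => ¬ ∃ l' : List Bool, a.length + l'.length = x.length ∧
        F v (saddr x (a ++ l') true) = true))

/-- the conclusion of `PHS.SL_congr` -/
def EProp (p : ℕ × List ℕ) (E : ℕ) : Prop := ∀ (O O' : Lang) (x : List Bool),
    (∀ w : List Bool, w.length < (x.length + 2) ^ E → O w = O' w) →
      SL p.1 p.2 O x = SL p.1 p.2 O' x

theorem exists_consts (dh : DepthHierarchy) : ∃ C M E : ℕ × List ℕ → ℕ,
    (∀ p, KProp p (C p) (M p)) ∧ ∀ p, EProp p (E p) := by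
  choose C M h using fun p : ℕ × List ℕ => kill dh p.1 p.2
  choose E h' using fun p : ℕ × List ℕ => SL_congr p.1 p.2
  exact ⟨C, M, E, h, h'⟩

/-- the slot used at the stage with block length `m`, level `k` -/
def slt (k m : ℕ) : List Bool := ones ((2 * k + 1) * m)

theorem slt_length (k m : ℕ) : (slt k m).length = (2 * k + 1) * m := List.length_replicate ..

/-- the word on which the language of the hierarchy is wrong -/
def wd (k m : ℕ) : List Bool := ones m ++ false :: slt k m

theorem wd_length (k m : ℕ) : (wd k m).length = m + (2 * k + 1) * m + 1 := by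
  unfold wd
  rw [List.length_append, List.length_cons, slt_length]
  have h : (ones m).length = m := List.length_replicate ..
  omega

/-- the language of the hierarchy with the index `p` is wrong -/
def PHW (p : ℕ × List ℕ) (m : ℕ) (O : Lang) : Prop :=
  ¬ (SL p.1 p.2 O (wd p.1 m) = true ↔
      alt (2 * p.1 + 1) m (fun a => ¬ ∃ l' : List Bool, a.length + l'.length = (slt p.1 m).length ∧
        O (saddr (slt p.1 m) (a ++ l') true) = true))

/-- the requirement `r` is satisfied at the level `m` -/
def Wrong (r m : ℕ) (O : Lang) : Prop :=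
  (r % 2 = 0 → NL (r / 2) O (ones m) = V O (ones m)) ∧ (r % 2 = 1 → PHW (rq (r / 2)) m O)

/-- the requirements on the sequence of levels -/
structure SeqH (C M E : ℕ × List ℕ → ℕ) (n : ℕ → ℕ) : Prop where
  A : SeqA n
  M : ∀ s, M (rq (s.unpair.1 / 2)) ≤ n s
  k : ∀ s, 2 * (rq (s.unpair.1 / 2)).1 + 1 ≤ n s
  C : ∀ s, n s ^ C (rq (s.unpair.1 / 2)) < n (s + 1)
  E : ∀ s, ((wd (rq (s.unpair.1 / 2)).1 (n s)).length + 2) ^ E (rq (s.unpair.1 / 2)) < n (s + 1)
  x : ∀ s, (2 * (rq (s.unpair.1 / 2)).1 + 1) * n s < n (s + 1)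

theorem exists_seqH (C M E : ℕ × List ℕ → ℕ) : ∃ n, SeqH C M E n := by
  obtain ⟨n, h1, h2⟩ := SEQ_gen
    (P := fun s m => (m + 2) ^ s < 2 ^ m ∧ M (rq (s.unpair.1 / 2)) ≤ m ∧
      2 * (rq (s.unpair.1 / 2)).1 + 1 ≤ m)
    (fun s => (SEQ_lt (SEQ_pow (SEQ_add SEQ_id (SEQ_const 2)) s)).and
      ((Filter.eventually_ge_atTop _).and (Filter.eventually_ge_atTop _)))
    (fun s m => (m + 2) ^ (s + 2) + m ^ C (rq (s.unpair.1 / 2)) +
      ((wd (rq (s.unpair.1 / 2)).1 m).length + 2) ^ E (rq (s.unpair.1 / 2)) +
      (2 * (rq (s.unpair.1 / 2)).1 + 1) * m)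
  refine ⟨n, ⟨⟨h1, fun s => ⟨(h2 s).1.1, ?_⟩⟩, fun s => (h2 s).1.2.1, fun s => (h2 s).1.2.2,
    fun s => ?_, fun s => ?_, fun s => ?_⟩⟩ <;>
  · have := (h2 s).2
    omega

/-! ### agreement off a set of secret addresses -/

theorem agreeS {n : ℕ → ℕ} (hn : SeqA n) {s : ℕ} {Y Y' : Lang} {A : Set (List Bool)}
    (hA : ∀ a ∈ A, sl (n s) ≤ a.length) (hag : ∀ x : List Bool, x ∉ A → Y x = Y' x)
    (hk : ¬ KillA n s (mkO (RA n) Y)) (hk' : ¬ KillA n s (mkO (RA n) Y')) :
    ∀ x : List Bool, x ∉ A → x.length < sl (n (s + 1)) → mkO (RA n) Y x = mkO (RA n) Y' x := by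
  have hbase : Agree (sl (n s)) (mkO (RA n) Y) (mkO (RA n) Y') := by
    refine mkO_agree (RA_local n) ?_
    intro x hx
    exact hag x (fun h => by have := hA x h; omega)
  intro x hxa hx
  rw [mkO_eq (RA_local n), mkO_eq (RA_local n)]
  by_cases hf : x.head? = some false
  · rw [if_pos hf, if_pos hf]; exact hag x hxa
  · rw [if_neg hf, if_neg hf]
    unfold RA
    match x, hf with
    | [], _ => rfl
    | [true], _ => rfl
    | [true, true], _ => rfl
    | true :: false :: s', _ =>
      simp only [reg]
      congr 1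
      apply propext
      exact STA_code_iff hn hbase hk hk' (by simp only [List.length_cons] at hx; omega)
    | true :: true :: false :: s', _ =>
      simp only [reg]
      congr 1
      apply propext
      exact base_gap hn.1 hbase s' (by simp only [List.length_cons] at hx; omega)
    | true :: true :: true :: s', _ => rfl

theorem mkO_secret {R : Lang → List Bool → Bool} (hR : Local R) (Y : Lang) (x y : List Bool) :
    mkO R Y (saddr x y true) = Y (saddr x y true) := by
  rw [mkO_eq hR, if_pos]
  rfl

/-! ### the stage for `NP` and `coNP` -/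

theorem stageN {n : ℕ → ℕ} (hn : SeqA n) (s r : ℕ) (hrs : r ≤ s) (Y : Lang)
    (hY : ∀ x : List Bool, sl (n s) ≤ x.length → Y x = false) :
    ∃ Y' : Lang, Agree (sl (n s)) Y Y' ∧
      (∀ x : List Bool, sl (n (s + 1)) ≤ x.length → Y' x = false) ∧
      (KillA n s (mkO (RA n) Y') ∨
        NL r (mkO (RA n) Y') (ones (n s)) = V (mkO (RA n) Y') (ones (n s))) := by
  classical
  have hlt : n s < n (s + 1) := hn.1 (Nat.lt_succ_self s)
  by_cases hE : KillA n s (mkO (RA n) Y) ∨
        NL r (mkO (RA n) Y) (ones (n s)) = V (mkO (RA n) Y) (ones (n s))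
  · exact ⟨Y, fun _ _ => rfl, fun x hx => hY x (by unfold sl at *; omega), hE⟩
  · have hkill : ¬ KillA n s (mkO (RA n) Y) := fun h => hE (Or.inl h)
    have hne : NL r (mkO (RA n) Y) (ones (n s)) ≠ V (mkO (RA n) Y) (ones (n s)) :=
      fun h => hE (Or.inr h)
    have hones : (ones (n s)).length = n s := List.length_replicate ..
    have hV : V (mkO (RA n) Y) (ones (n s)) = false := by
      rw [STA_V_secret (RA_local n)]
      unfold V
      rw [decide_eq_false_iff_not]
      rintro ⟨y, hy, hO⟩
      rw [hY] at hO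
      · exact absurd hO (by simp)
      · rw [saddr_length hy.symm, hones]; unfold sl; omega
    rw [hV] at hne
    have hNL : NL r (mkO (RA n) Y) (ones (n s)) = true := by
      cases h : NL r (mkO (RA n) Y) (ones (n s)) with
      | true => rfl
      | false => exact absurd h hne
    unfold NL at hNL
    rw [decide_eq_true_eq] at hNL
    obtain ⟨y0, hy0, hacc⟩ := hNL
    rw [hones] at hy0 hacc
    have hexr : ex r ≤ r := Nat.unpair_right_le r
    have hpow1 : (n s + 2) ^ ex r ≤ (n s + 2) ^ s :=
      Nat.pow_le_pow_right (by omega) (by omega)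
    have hb1 := (hn.2 s).1
    have hb2 := (hn.2 s).2
    have hpow2 : (n s + 2) ^ (s + 2) = (n s + 2) ^ s * ((n s + 2) * (n s + 2)) := by ring
    have hpos : 1 ≤ (n s + 2) ^ s := Nat.one_le_pow _ _ (by omega)
    have hpow3 : n s + (n s + 2) ^ s + (n s + 2) ^ s ≤ (n s + 2) ^ (s + 2) := by
      have e1 : (n s + 2) ^ s * ((n s + 2) * (n s + 2)) =
          (n s + 2) ^ s * (n s * n s) + 4 * ((n s + 2) ^ s * n s) + 4 * (n s + 2) ^ s := by ring
      have e2 : n s ≤ (n s + 2) ^ s * n s := Nat.le_mul_of_pos_left _ hpos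
      rw [hpow2, e1]
      have e3 := Nat.zero_le ((n s + 2) ^ s * (n s * n s))
      omega
    obtain ⟨Q, hQ1, hQ2, hQ3⟩ := run_queries (mkO (RA n) Y) (prog r) (ones (n s)) y0
      ((n s + 2) ^ ex r) (n (s + 1)) (by rw [hones]; omega) (by omega)
    obtain ⟨y, hy, hyQ⟩ : ∃ y : List Bool, y.length = n s ∧ saddr (ones (n s)) y true ∉ Q := by
      by_contra hcon
      push Not at hcon
      have hinj : Function.Injective (fun v : List.Vector Bool (n s) =>
          saddr (ones (n s)) v.toList true) := by
        intro v w hvw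
        have := addr_saddr_inj (by rw [hones, List.Vector.toList_length])
          (by rw [hones, List.Vector.toList_length]) hvw
        exact List.Vector.toList_injective this.2.1
      have hsub : Finset.univ.image (fun v : List.Vector Bool (n s) =>
          saddr (ones (n s)) v.toList true) ⊆ Q.toFinset := by
        intro w hw
        rw [Finset.mem_image] at hw
        obtain ⟨v, -, rfl⟩ := hw
        exact List.mem_toFinset.2 (hcon _ (List.Vector.toList_length v))
      have h1 := Finset.card_le_card hsub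
      rw [Finset.card_image_of_injective _ hinj, Finset.card_univ, card_vector,
        Fintype.card_bool] at h1
      have h2 := Q.toFinset_card_le
      omega
    set a := saddr (ones (n s)) y true with ha
    have hal : a.length = sl (n s) := by
      rw [ha, saddr_length (by rw [hones, hy]), hones]; rfl
    set Y' : Lang := fun x => if x = a then true else Y x with hY'
    have hag : ∀ x, x ∉ ({a} : Set (List Bool)) → Y x = Y' x := by
      intro x hx
      have hx' : x ≠ a := hx
      rw [hY']; simp only [if_neg hx']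
    refine ⟨Y', ?_, ?_, ?_⟩
    · intro x hx
      refine hag x (fun h => ?_)
      have h' : x = a := h
      subst h'
      omega
    · intro x hx
      have hx' : x ≠ a := by
        rintro rfl
        rw [hal] at hx
        unfold sl at hx
        omega
      rw [← hag x hx']
      exact hY x (by unfold sl at *; omega)
    · by_cases hk : KillA n s (mkO (RA n) Y')
      · exact Or.inl hk
      · right
        have hagree := agreeS hn (A := {a}) (by rintro b rfl; rw [hal]) hag hkill hk
        have hV' : V (mkO (RA n) Y') (ones (n s)) = true := by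
          rw [STA_V_secret (RA_local n)]
          unfold V
          rw [decide_eq_true_eq]
          refine ⟨y, by rw [hones, hy], ?_⟩
          rw [← ha, hY']
          simp
        rw [hV']
        unfold NL
        rw [decide_eq_true_eq]
        refine ⟨y0, by rw [hones]; exact hy0, ?_⟩
        rw [hones]
        have hrun := hQ3 (mkO (RA n) Y') (fun q hq => by
          refine (hagree q ?_ ?_).symm
          · intro h
            have h' : q = a := h
            subst h'
            exact hyQ hq
          · have := hQ2 q hq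
            unfold sl; omega)
        unfold accB at hacc ⊢
        rw [hrun]
        exact hacc

/-! ### the stage for the polynomial hierarchy -/

open Classical in
/-- the region with the vector `v` written into the slot -/
noncomputable def wv (k m : ℕ) (Y : Lang) (v : List (X m) → Bool) : Lang := fun w =>
  Y w || decide (∃ l : List (X m), l.length = 2 * k + 1 ∧ w = saddr (slt k m) (flat l) true ∧
    v l = false)

/-- the addresses of the slot -/
def AS (k m : ℕ) : Set (List Bool) :=
  {w | ∃ l : List (X m), l.length = 2 * k + 1 ∧ w = saddr (slt k m) (flat l) true}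

theorem length_flat' {k m : ℕ} {l : List (X m)} (hl : l.length = 2 * k + 1) :
    (slt k m).length = (flat l).length := by
  rw [slt_length, length_flat, hl]

theorem AS_length {k m : ℕ} {w : List Bool} (h : w ∈ AS k m) :
    w.length = 2 * ((2 * k + 1) * m) + 2 := by
  obtain ⟨l, hl, rfl⟩ := h
  rw [saddr_length (length_flat' hl), slt_length]

theorem wv_off {k m : ℕ} (Y : Lang) (v : List (X m) → Bool) {w : List Bool} (h : w ∉ AS k m) :
    wv k m Y v w = Y w := by
  unfold wv
  have h1 : ¬ ∃ l : List (X m), l.length = 2 * k + 1 ∧ w = saddr (slt k m) (flat l) true ∧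
      v l = false := by
    rintro ⟨l, h1, h2, -⟩
    exact h ⟨l, h1, h2⟩
  rw [decide_eq_false_iff_not.2 h1, Bool.or_false]

theorem wv_on {k m : ℕ} (Y : Lang) (v : List (X m) → Bool) {l : List (X m)}
    (hl : l.length = 2 * k + 1) (hY : Y (saddr (slt k m) (flat l) true) = false) :
    wv k m Y v (saddr (slt k m) (flat l) true) = !v l := by
  classical
  unfold wv
  rw [hY, Bool.false_or]
  cases hv : v l with
  | false =>
    rw [Bool.not_false]
    exact decide_eq_true_iff.2 ⟨l, hl, rfl, hv⟩
  | true =>
    rw [Bool.not_true, decide_eq_false_iff_not]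
    rintro ⟨l', h1, h2, h3⟩
    have h4 := (addr_saddr_inj (length_flat' hl) (length_flat' h1) h2).2.1
    have h5 : l = l' := flat_inj (hl.trans h1.symm) h4
    rw [← h5, hv] at h3
    exact Bool.noConfusion h3

theorem certC_const {ι : Type} (t : ℕ) (b : Bool) : CertC t (fun _ : ι → Bool => b) :=
  fun _ => ⟨∅, Nat.zero_le _, fun _ _ => rfl⟩

theorem stageP {C M E : ℕ × List ℕ → ℕ} (hC : ∀ p, KProp p (C p) (M p)) {n : ℕ → ℕ}
    (hn : SeqH C M E n) (s : ℕ) (Y : Lang)
    (hY : ∀ x : List Bool, sl (n s) ≤ x.length → Y x = false) :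
    ∃ Y' : Lang, Agree (sl (n s)) Y Y' ∧
      (∀ x : List Bool, sl (n (s + 1)) ≤ x.length → Y' x = false) ∧
      (KillA n s (mkO (RA n) Y') ∨ PHW (rq (s.unpair.1 / 2)) (n s) (mkO (RA n) Y')) := by
  classical
  set p := rq (s.unpair.1 / 2) with hp
  set m := n s with hm
  have hlt : n s < n (s + 1) := hn.A.1 (Nat.lt_succ_self s)
  have hxl : (2 * p.1 + 1) * m < n (s + 1) := hn.x s
  have hm1 : m ≤ (2 * p.1 + 1) * m := Nat.le_mul_of_pos_left _ (by omega)
  have hk1 : 2 * p.1 + 1 ≤ m := hn.k s
  have hA : ∀ a ∈ AS p.1 m, sl (n s) ≤ a.length := by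
    intro a ha
    rw [AS_length ha]
    unfold sl
    omega
  have hA2 : ∀ a ∈ AS p.1 m, a.length < sl (n (s + 1)) := by
    intro a ha
    rw [AS_length ha]
    unfold sl
    omega
  have hoff : ∀ v : List (X m) → Bool, Agree (sl (n s)) Y (wv p.1 m Y v) := by
    intro v x hx
    exact (wv_off Y v (fun h => by have := hA x h; omega)).symm
  have hvan : ∀ (v : List (X m) → Bool) (x : List Bool), sl (n (s + 1)) ≤ x.length →
      wv p.1 m Y v x = false := by
    intro v x hx
    rw [wv_off Y v (fun h => by have := hA2 x h; omega)]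
    exact hY x (by unfold sl at *; omega)
  by_cases hkill : ∃ v : List (X m) → Bool, KillA n s (mkO (RA n) (wv p.1 m Y v))
  · obtain ⟨v, hv⟩ := hkill
    exact ⟨_, hoff v, hvan v, Or.inl hv⟩
  · push Not at hkill
    have hon : ∀ (v : List (X m) → Bool) (l : List (X m)), l.length = 2 * p.1 + 1 →
        mkO (RA n) (wv p.1 m Y v) (saddr (slt p.1 m) (flat l) true) = !v l := by
      intro v l hl
      rw [mkO_secret (RA_local n)]
      exact wv_on Y v hl (hY _ (hA _ ⟨l, hl, rfl⟩))
    have hx2 : (slt p.1 m).length ≤ m ^ 2 := by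
      rw [slt_length, pow_two]
      exact Nat.mul_le_mul_right _ hk1
    obtain ⟨v, hv⟩ := hC p m (hn.M s) (slt p.1 m) hx2
      (fun v => mkO (RA n) (wv p.1 m Y v)) (by
        intro w hw
        have hw' : w.length < n (s + 1) := lt_trans hw (hn.C s)
        have hpos : 1 ≤ m ^ C p := Nat.one_le_pow _ _ (by omega)
        by_cases hwA : w ∈ AS p.1 m
        · obtain ⟨l, hl, rfl⟩ := hwA
          intro v
          refine ⟨{l}, by rw [Finset.card_singleton]; exact hpos, fun v' hv' => ?_⟩
          show mkO (RA n) (wv p.1 m Y v') _ = mkO (RA n) (wv p.1 m Y v) _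
          rw [hon v' l hl, hon v l hl, hv' l (Finset.mem_singleton_self l)]
        · have hcst : ∀ v v' : List (X m) → Bool,
              mkO (RA n) (wv p.1 m Y v) w = mkO (RA n) (wv p.1 m Y v') w := by
            intro v v'
            refine agreeS hn.A (A := AS p.1 m) hA ?_ (hkill v) (hkill v') w hwA
              (by unfold sl; omega)
            intro x hx
            rw [wv_off Y v hx, wv_off Y v' hx]
          intro v
          exact ⟨∅, Nat.zero_le _, fun v' _ => hcst v' v⟩)
      (by
        intro v l hl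
        have hlen := length_flat' (k := p.1) hl
        constructor
        · rintro hvl ⟨l', h1, h2⟩
          have h3 : l' = [] := List.length_eq_zero_iff.1 (by omega)
          subst h3
          rw [List.append_nil] at h2
          have h4 := hon v l hl
          rw [hvl] at h4
          rw [h2] at h4
          exact Bool.noConfusion h4
        · intro h
          by_contra hvl
          rw [Bool.not_eq_true] at hvl
          refine h ⟨[], by rw [List.length_nil]; omega, ?_⟩
          rw [List.append_nil]
          have h4 := hon v l hl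
          rw [hvl] at h4
          exact h4)
    exact ⟨_, hoff v, hvan v, Or.inr hv⟩

/-! ### all stages -/

/-- the goal of stage `s` -/
def QH (n : ℕ → ℕ) (s : ℕ) (O : Lang) : Prop := KillA n s O ∨ Wrong s.unpair.1 (n s) O

theorem stageH {C M E : ℕ × List ℕ → ℕ} (hC : ∀ p, KProp p (C p) (M p)) {n : ℕ → ℕ}
    (hn : SeqH C M E n) (s : ℕ) (Y : Lang)
    (hY : ∀ x : List Bool, sl (n s) ≤ x.length → Y x = false) :
    ∃ Y' : Lang, Agree (sl (n s)) Y Y' ∧
      (∀ x : List Bool, sl (n (s + 1)) ≤ x.length → Y' x = false) ∧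
      QH n s (mkO (RA n) Y') := by
  rcases Nat.mod_two_eq_zero_or_one s.unpair.1 with h | h
  · obtain ⟨Y', h1, h2, h3⟩ := stageN hn.A s (s.unpair.1 / 2)
      ((Nat.div_le_self _ _).trans (Nat.unpair_left_le s)) Y hY
    refine ⟨Y', h1, h2, h3.imp id fun h4 => ⟨fun _ => h4, fun h5 => ?_⟩⟩
    omega
  · obtain ⟨Y', h1, h2, h3⟩ := stageP hC hn s Y hY
    refine ⟨Y', h1, h2, h3.imp id fun h4 => ⟨fun h5 => ?_, fun _ => h4⟩⟩
    omega

theorem alt_congr {m : ℕ} : ∀ (K : ℕ) {f g : List Bool → Prop},
    (∀ a : List Bool, a.length = K * m → (f a ↔ g a)) → (alt K m f ↔ alt K m g) := by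
  intro K
  induction K with
  | zero => intro f g h; exact h [] (by simp)
  | succ K ih =>
    intro f g h
    simp only [alt]
    refine exists_congr fun a => and_congr_right fun ha => not_congr ?_
    refine ih fun l hl => h _ ?_
    rw [List.length_append, ha, hl]
    ring

theorem QH_local {C M E : ℕ × List ℕ → ℕ} (hE : ∀ p, EProp p (E p)) {n : ℕ → ℕ}
    (hn : SeqH C M E n) (s : ℕ) (O O' : Lang)
    (h : Agree (sl (n (s + 1))) O O') (hQ : QH n s O) : QH n s O' := by
  have hlt : n s < n (s + 1) := hn.A.1 (Nat.lt_succ_self s)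
  have hones : (ones (n s)).length = n s := List.length_replicate ..
  rcases hQ with ⟨T, h1, h2, h3⟩ | ⟨hQ0, hQ1⟩
  · left
    refine ⟨T, h1, ?_, (STA_dead_congr h).1 h3⟩
    intro h4
    exact h2 ((STA_dead_congr (STA_agree_mono (by unfold sl; omega) h)).2 h4)
  · right
    refine ⟨fun hr => ?_, fun hr => ?_⟩
    · have hQ := hQ0 hr
      have hrs : s.unpair.1 / 2 ≤ s := (Nat.div_le_self _ _).trans (Nat.unpair_left_le s)
      have hb2 := (hn.A.2 s).2
      rw [← NL_congr (s.unpair.1 / 2) O O' (ones (n s)), hQ]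
      · refine V_congr (fun w hw => ?_)
        rw [hones] at hw
        exact h w (by unfold sl; omega)
      · intro w hw
        rw [hones] at hw
        have : (n s + 2) ^ (s.unpair.1 / 2 + 2) ≤ (n s + 2) ^ (s + 2) :=
          Nat.pow_le_pow_right (by omega) (by omega)
        exact h w (by unfold sl; omega)
    · have hQ := hQ1 hr
      have hEs := hn.E s
      have hx := hn.x s
      set p := rq (s.unpair.1 / 2) with hp
      unfold PHW at hQ ⊢
      have e1 : SL p.1 p.2 O (wd p.1 (n s)) = SL p.1 p.2 O' (wd p.1 (n s)) := by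
        refine hE p O O' _ fun w hw => h w ?_
        unfold sl
        omega
      rw [← e1]
      rw [← alt_congr (f := fun a => ¬ ∃ l' : List Bool,
        a.length + l'.length = (slt p.1 (n s)).length ∧
        O (saddr (slt p.1 (n s)) (a ++ l') true) = true)]
      · exact hQ
      · intro a _
        refine not_congr (exists_congr fun l' => and_congr_right fun hl => ?_)
        rw [h]
        rw [saddr_length (by rw [List.length_append]; exact hl.symm), slt_length]
        unfold sl
        omega

/-- the kills are bounded -/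
theorem not_all_kill {n : ℕ → ℕ} (hn : StrictMono n) (O : Lang) (i : ℕ) :
    ∃ j, ¬ KillA n (Nat.pair i j) O := by
  by_contra hcon
  push Not at hcon
  choose T h1 h2 h3 using hcon
  have hsl : Monotone (fun s => sl (n s)) := by
    intro a b hab
    have := hn.monotone hab
    change 2 * n a + 2 ≤ 2 * n b + 2
    omega
  have hinj : ∀ j j', j < j' → T j ≠ T j' := by
    intro j j' hjj hT
    have hp : Nat.pair i j + 1 ≤ Nat.pair i j' := Nat.pair_lt_pair_right i hjj
    have := FNA_dead_mono (hsl hp) (h3 j)
    rw [hT] at this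
    exact h2 j' this
  have hlt : ∀ j ≤ i + 1, idx (T j) < i := by
    intro j hj
    have h4 := h1 j
    have h5 := FNA_pair_lt hj
    have h6 : (idx (T j) + 2) ^ 2 < (i + 2) ^ 2 := lt_of_le_of_lt h4 h5
    have h7 := lt_of_pow_lt_pow_left₀ 2 (by omega) h6
    omega
  have hcard : (Finset.range (i + 2)).card ≤ (Finset.range i).card := by
    apply Finset.card_le_card_of_injOn (fun j => idx (T j))
    · intro j hj
      have hj' : j < i + 2 := by simpa using hj
      simpa using hlt j (by omega)
    · intro j hj j' hj' hjj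
      by_contra hne
      have hT := FNA_idx_inj hjj
      rcases Nat.lt_or_gt_of_ne hne with hl | hl
      · exact hinj j j' hl hT
      · exact hinj j' j hl hT.symm
  rw [Finset.card_range, Finset.card_range] at hcard
  omega

theorem exists_wrong {n : ℕ → ℕ} (hn : StrictMono n) {O : Lang} (h : ∀ s, QH n s O) (i : ℕ) :
    ∃ m, Wrong i m O := by
  obtain ⟨j, hj⟩ := not_all_kill hn O i
  have h1 := (h (Nat.pair i j)).resolve_left hj
  rw [Nat.unpair_pair] at h1
  exact ⟨_, h1⟩

theorem not_coNP {n : ℕ → ℕ} (hn : StrictMono n) {O : Lang} (h : ∀ s, QH n s O) :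
    ¬ InNP O (fun x => !V O x) := by
  intro hNP
  obtain ⟨i, hi⟩ := exists_NL hNP
  obtain ⟨m, hm, -⟩ := exists_wrong hn h (2 * i)
  have h1 := hm (by omega)
  rw [show 2 * i / 2 = i by omega, hi] at h1
  change (!V O (ones m)) = V O (ones m) at h1
  cases hv : V O (ones m) with
  | false => rw [hv] at h1; exact Bool.noConfusion h1
  | true => rw [hv] at h1; exact Bool.noConfusion h1

theorem infinite {n : ℕ → ℕ} (hn : StrictMono n) {O : Lang} (h : ∀ s, QH n s O) :
    ∀ k, ∃ L, InSig O (k + 1) L ∧ ¬ InSig O k L := by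
  refine ph_infinite O fun k => ?_
  obtain ⟨Q, hQ1, hQ2⟩ := up (2 * k)
  refine ⟨Q O, hQ1 O, fun t ht => ?_⟩
  obtain ⟨m, -, hm⟩ := exists_wrong hn h (2 * Encodable.encode ((k, t) : ℕ × List ℕ) + 1)
  have h1 := hm (by omega)
  rw [show (2 * Encodable.encode ((k, t) : ℕ × List ℕ) + 1) / 2 =
    Encodable.encode ((k, t) : ℕ × List ℕ) by omega, rq_encode] at h1
  apply h1
  show SL k t O (wd k m) = true ↔ _
  rw [ht]
  exact hQ2 O m (slt k m)

end Pool.Agent.PHR
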