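import Pool.Agent.Lib_helper6.PHR.Stage
import Pool.Agent.Lib_helper78.RF.F.FNB

/-!
# Stages for the polynomial hierarchy for the second oracle (MP_5c38ab_lc)
-/

set_option autoImplicit false

namespace Pool.Agent.PHR

open Pool.Agent.CK Pool.Agent.PHS Pool.Agent.RF

/-! ### neutral extensions of alternating trees -/

theorem Sip_const {A : Type} [Nonempty A] : ∀ K : ℕ,
    Sip K (fun _ : List A => decide (K % 2 = 0)) ∧
      ¬ Sip K (fun _ : List A => decide (K % 2 = 1)) := by
  intro K
  induction K with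
  | zero => exact ⟨rfl, fun h => Bool.noConfusion h⟩
  | succ K ih =>
    have e1 : decide ((K + 1) % 2 = 0) = decide (K % 2 = 1) := decide_eq_decide.2 (by omega)
    have e2 : decide ((K + 1) % 2 = 1) = decide (K % 2 = 0) := decide_eq_decide.2 (by omega)
    rw [e1, e2]
    refine ⟨⟨Classical.arbitrary A, ih.2⟩, ?_⟩
    rintro ⟨a, ha⟩
    exact ha ih.1

open Classical in
/-- the extension of `v` to all lists: a player who leaves `S` loses -/
noncomputable def lft {Z : Type} (S : Finset Z) : ℕ → (List S → Bool) → List Z → Bool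
  | 0, v, _ => v []
  | K + 1, v, l => match l with
    | [] => true
    | a :: l => if h : a ∈ S then lft S K (fun l' => v (⟨a, h⟩ :: l')) l
        else decide (K % 2 = 0)

theorem Sip_lft {Z : Type} [Nonempty Z] (S : Finset Z) : ∀ (K : ℕ) (v : List S → Bool),
    Sip K (lft S K v) ↔ Sip K v := by
  classical
  intro K
  induction K with
  | zero => intro v; exact Iff.rfl
  | succ K ih =>
    intro v
    have hin : ∀ (a : Z) (h : a ∈ S), (fun l => lft S (K + 1) v (a :: l)) =
        lft S K (fun l' => v (⟨a, h⟩ :: l')) := by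
      intro a h
      funext l
      simp only [lft]
      rw [dif_pos h]
    have hout : ∀ a : Z, a ∉ S → (fun l => lft S (K + 1) v (a :: l)) =
        fun _ => decide (K % 2 = 0) := by
      intro a h
      funext l
      simp only [lft]
      rw [dif_neg h]
    constructor
    · rintro ⟨a, ha⟩
      by_cases h : a ∈ S
      · rw [hin a h, ih] at ha
        exact ⟨⟨a, h⟩, ha⟩
      · rw [hout a h] at ha
        exact absurd (Sip_const K).1 ha
    · rintro ⟨⟨a, h⟩, ha⟩
      refine ⟨a, ?_⟩
      rw [hin a h, ih]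
      exact ha

theorem lft_dep {Z : Type} (S : Finset Z) : ∀ (K : ℕ) (l : List Z),
    (∃ l0 : List S, ∀ v : List S → Bool, lft S K v l = v l0) ∨
      ∃ b : Bool, ∀ v : List S → Bool, lft S K v l = b := by
  classical
  intro K
  induction K with
  | zero => intro l; exact Or.inl ⟨[], fun v => rfl⟩
  | succ K ih =>
    intro l
    cases l with
    | nil => exact Or.inr ⟨true, fun v => rfl⟩
    | cons a l =>
      by_cases h : a ∈ S
      · rcases ih l with ⟨l0, h0⟩ | ⟨b, hb⟩
        · refine Or.inl ⟨⟨a, h⟩ :: l0, fun v => ?_⟩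
          simp only [lft]
          rw [dif_pos h, h0]
        · refine Or.inr ⟨b, fun v => ?_⟩
          simp only [lft]
          rw [dif_pos h, hb]
      · refine Or.inr ⟨decide (K % 2 = 0), fun v => ?_⟩
        simp only [lft]
        rw [dif_neg h]

open Classical in
/-- the values `g` if the first block is not in `S` -/
noncomputable def fll {Z : Type} (S : Finset Z) (g : List Z → Bool) (K : ℕ)
    (v : List S → Bool) (l : List Z) : Bool :=
  match l with
  | [] => true
  | a :: l => if h : a ∈ S then lft S K (fun l' => v (⟨a, h⟩ :: l')) l else g (a :: l)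

theorem Sip_fll {Z : Type} [Nonempty Z] (S : Finset Z) (g : List Z → Bool) (K : ℕ)
    (hg : ∀ a, a ∉ S → Sip K (fun l => g (a :: l))) (v : List S → Bool) :
    Sip (K + 1) (fll S g K v) ↔ Sip (K + 1) v := by
  classical
  have hin : ∀ (a : Z) (h : a ∈ S), (fun l => fll S g K v (a :: l)) =
      lft S K (fun l' => v (⟨a, h⟩ :: l')) := by
    intro a h
    funext l
    simp only [fll]
    rw [dif_pos h]
  have hout : ∀ a : Z, a ∉ S → (fun l => fll S g K v (a :: l)) = fun l => g (a :: l) := by
    intro a h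
    funext l
    simp only [fll]
    rw [dif_neg h]
  constructor
  · rintro ⟨a, ha⟩
    by_cases h : a ∈ S
    · rw [hin a h, Sip_lft] at ha
      exact ⟨⟨a, h⟩, ha⟩
    · rw [hout a h] at ha
      exact absurd (hg a h) ha
  · rintro ⟨⟨a, h⟩, ha⟩
    refine ⟨a, ?_⟩
    rw [hin a h, Sip_lft]
    exact ha

theorem fll_dep {Z : Type} (S : Finset Z) (g : List Z → Bool) (K : ℕ) (l : List Z) :
    (∃ l0 : List S, ∀ v : List S → Bool, fll S g K v l = v l0) ∨
      ∃ b : Bool, ∀ v : List S → Bool, fll S g K v l = b := by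
  classical
  cases l with
  | nil => exact Or.inr ⟨true, fun v => rfl⟩
  | cons a l =>
    by_cases h : a ∈ S
    · rcases lft_dep S K l with ⟨l0, h0⟩ | ⟨b, hb⟩
      · refine Or.inl ⟨⟨a, h⟩ :: l0, fun v => ?_⟩
        simp only [fll]
        rw [dif_pos h, h0]
      · refine Or.inr ⟨b, fun v => ?_⟩
        simp only [fll]
        rw [dif_pos h, hb]
    · refine Or.inr ⟨g (a :: l), fun v => ?_⟩
      simp only [fll]
      rw [dif_neg h]

theorem fll_cert {Z : Type} (S : Finset Z) (g : List Z → Bool) (K : ℕ) (l : List Z) (t : ℕ)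
    (ht : 1 ≤ t) : CertC t (fun v : List S → Bool => fll S g K v l) := by
  intro v
  rcases fll_dep S g K l with ⟨l0, h0⟩ | ⟨b, hb⟩
  · refine ⟨{l0}, by rw [Finset.card_singleton]; exact ht, fun v' hv' => ?_⟩
    show fll S g K v' l = fll S g K v l
    rw [h0, h0, hv' l0 (Finset.mem_singleton_self _)]
  · refine ⟨∅, Nat.zero_le _, fun v' _ => ?_⟩
    show fll S g K v' l = fll S g K v l
    rw [hb, hb]

/-! ### freezing the code region -/

theorem cmpB {n : ℕ → ℕ} (hn : StrictMono n) {s W L : ℕ} (hW : W < sl (n (s + 1))) (hL : L ≤ W)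
    {Y1 Y2 : Lang} (hY : Agree (sl (n s)) Y1 Y2)
    (h : ∀ L' < L, stb_D W L' (mkO (RB n) Y1) = stb_D W L' (mkO (RB n) Y2))
    {x : List Bool} (hxL : x.length ≤ L) (hx : Y1 x = Y2 x) :
    mkO (RB n) Y1 x = mkO (RB n) Y2 x := by
  have hag : Agree (sl (n s)) (mkO (RB n) Y1) (mkO (RB n) Y2) := mkO_agree (RB_local n) hY
  rw [mkO_eq (RB_local n) Y1, mkO_eq (RB_local n) Y2]
  split_ifs with h0
  · exact hx
  · generalize mkO (RB n) Y1 = O at h hag ⊢
    generalize mkO (RB n) Y2 = O' at h hag ⊢
    unfold RB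
    match x, h0, hxL, hx with
    | [], _, _, _ => rfl
    | [true], _, _, _ => rfl
    | [true, true], _, _, _ => rfl
    | true :: true :: true :: z, _, _, _ => rfl
    | false :: z, h0, _, _ => simp at h0
    | true :: true :: false :: z, _, hxL, _ =>
      simp only [reg]
      congr 1
      apply propext
      simp only [List.length_cons] at hxL
      exact base_gap hn hag z (by omega)
    | true :: false :: z, _, hxL, _ =>
      simp only [reg]
      congr 1
      apply propext
      simp only [List.length_cons] at hxL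
      have key : ∀ (T : Th) (m k : ℕ), z = (pad m (Con T k)).enc → Dep T.2 k ≤ m → idx T ≤ m →
          ((∀ k' ≤ k, ConT O T k') ↔ ∀ k' ≤ k, ConT O' T k') := by
        intro T m k h1 h2 h3
        have h4 : z.length = 6 * m + 12 + (Con T k).enc.length := by rw [h1, pad_len]
        have h5 : m < L := by omega
        have h6 := h m h5
        refine forall_congr' fun k' => forall_congr' fun hk' => ?_
        have h7 : Dep T.2 k' ≤ m := (dep_mono hk').trans h2
        have h8 : ((T, k') ∈ stb_D W m O) ↔ ((T, k') ∈ stb_D W m O') := by rw [h6]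
        simp only [stb_D, Set.mem_ofPred_eq] at h8
        have h9 : idx T ≤ W := by omega
        tauto
      unfold CodeB
      constructor
      · rintro ⟨T, m, k, h1, h2, h3, h4⟩
        exact ⟨T, m, k, h1, h2, h3, (key T m k h1 h2 h3).1 h4⟩
      · rintro ⟨T, m, k, h1, h2, h3, h4⟩
        exact ⟨T, m, k, h1, h2, h3, (key T m k h1 h2 h3).2 h4⟩

open Classical in
/-- the secret part with the set `T` of additional words -/
noncomputable def wT (Y : Lang) (T : Set (List Bool)) : Lang := fun x => Y x || decide (x ∈ T)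

theorem wT_off (Y : Lang) {T : Set (List Bool)} {x : List Bool} (h : x ∉ T) : wT Y T x = Y x := by
  unfold wT
  rw [decide_eq_false_iff_not.2 h, Bool.or_false]

theorem wT_on (Y : Lang) {T : Set (List Bool)} {x : List Bool} (h : x ∈ T) :
    wT Y T x = true := by
  classical
  unfold wT
  rw [Bool.or_eq_true]
  exact Or.inr (decide_eq_true_iff.2 h)

theorem wT_congr (Y : Lang) {T T' : Set (List Bool)} {x : List Bool} (h : x ∈ T ↔ x ∈ T') :
    wT Y T x = wT Y T' x := by
  by_cases hx : x ∈ T
  · rw [wT_on Y hx, wT_on Y (h.1 hx)]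
  · rw [wT_off Y hx, wT_off Y (fun h' => hx (h.2 h'))]

theorem freezeB {n : ℕ → ℕ} (hn : StrictMono n) {s W : ℕ} (hW : W < sl (n (s + 1))) (Y : Lang)
    (A : Set (List Bool)) (hfin : A.Finite) (hA : ∀ a ∈ A, sl (n s) ≤ a.length) :
    ∃ (T0 : Set (List Bool)) (R0 : Finset (List Bool)), T0 ⊆ A ∧
      R0.card ≤ (W + 1) ^ 2 * (W * W) ∧ (∀ w ∈ R0, w ∈ A) ∧
      ∀ T ⊆ A, (∀ w ∈ R0, (w ∈ T ↔ w ∈ T0)) → ∀ x : List Bool, x.length ≤ W → x ∉ A →
        mkO (RB n) (wT Y T) x = mkO (RB n) (wT Y T0) x := by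
  classical
  have hι : Finite {T : Set (List Bool) // T ⊆ A} := hfin.finite_subsets
  have hιn : Nonempty {T : Set (List Bool) // T ⊆ A} := ⟨⟨∅, Set.empty_subset A⟩⟩
  obtain ⟨⟨T0, hT0A⟩, hT0⟩ := stb_lex (ι := {T : Set (List Bool) // T ⊆ A})
    (fun T L => stb_D W L (mkO (RB n) (wT Y T.1))) (W + 1)
  simp only at hT0
  set O0 := mkO (RB n) (wT Y T0) with hO0
  have hq : ∀ p ∈ stb_D W W O0, ∃ Q : List (List Bool),
      Q.length ≤ Dep p.1.2 p.2 * Dep p.1.2 p.2 ∧ (∀ q ∈ Q, q.length < Dep p.1.2 p.2) ∧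
      ∀ O' : Lang, (∀ q ∈ Q, O' q = O0 q) → ¬ ConT O' p.1 p.2 :=
    fun p hp => not_conT_queries hp.2.2
  choose! Qf hQf1 hQf2 hQf3 using hq
  obtain ⟨hDfin, hncard⟩ := stb_pair_card W W le_rfl O0
  set R0 : Finset (List Bool) :=
    (hDfin.toFinset.biUnion fun p => (Qf p).toFinset).filter (fun w => w ∈ A) with hR0
  have hagT : ∀ T ⊆ A, Agree (sl (n s)) (wT Y T) (wT Y T0) := by
    intro T hT x hx
    refine wT_congr Y ⟨fun h => ?_, fun h => ?_⟩
    · have := hA x (hT h); omega
    · have := hA x (hT0A h); omega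
  have claim : ∀ T ⊆ A, (∀ w ∈ R0, (w ∈ T ↔ w ∈ T0)) → ∀ L ≤ W,
      stb_D W L (mkO (RB n) (wT Y T)) = stb_D W L O0 := by
    intro T hT hTR L
    induction L using Nat.strong_induction_on with
    | _ L ih =>
      intro hL
      have ih' : ∀ L' < L, stb_D W L' (mkO (RB n) (wT Y T)) = stb_D W L' O0 :=
        fun L' h => ih L' h (by omega)
      have hsub : stb_D W L O0 ⊆ stb_D W L (mkO (RB n) (wT Y T)) := by
        rintro ⟨T2, k2⟩ ⟨g1, g2, g3⟩
        refine ⟨g1, g2, ?_⟩
        have hmem : ((T2, k2) : Th × ℕ) ∈ stb_D W W O0 := ⟨g1, g2.trans hL, g3⟩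
        apply hQf3 (T2, k2) hmem
        intro q hq
        have hql := hQf2 (T2, k2) hmem q hq
        have g2' : Dep T2.2 k2 ≤ L := g2
        refine cmpB hn hW hL (hagT T hT) ih' (by simp only at hql; omega) ?_
        apply wT_congr
        by_cases hqA : q ∈ A
        · refine hTR q ?_
          rw [hR0, Finset.mem_filter, Finset.mem_biUnion]
          exact ⟨⟨(T2, k2), hDfin.mem_toFinset.2 hmem, List.mem_toFinset.2 hq⟩, hqA⟩
        · exact ⟨fun h => absurd (hT h) hqA, fun h => absurd (hT0A h) hqA⟩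
      exact (hT0 L (by omega) ⟨T, hT⟩ ih' hsub).symm
  refine ⟨T0, R0, hT0A, ?_, fun w hw => (Finset.mem_filter.1 hw).2, ?_⟩
  · have h1 : (hDfin.toFinset.biUnion fun p => (Qf p).toFinset).card ≤
        hDfin.toFinset.card * (W * W) := by
      apply Finset.card_biUnion_le_card_mul
      intro p hp
      rw [Set.Finite.mem_toFinset] at hp
      refine ((List.toFinset_card_le _).trans (hQf1 p hp)).trans ?_
      exact Nat.mul_le_mul hp.2.1 hp.2.1
    have h2 : hDfin.toFinset.card ≤ (W + 1) ^ 2 := by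
      rw [← Set.ncard_eq_toFinset_card _ hDfin]; exact hncard
    exact (Finset.card_filter_le _ _).trans (h1.trans (Nat.mul_le_mul_right _ h2))
  · intro T hT hTR x hx hxA
    refine cmpB hn hW le_rfl (hagT T hT) (fun L' h => claim T hT hTR L' h.le) hx ?_
    exact wT_congr Y ⟨fun h => absurd (hT h) hxA, fun h => absurd (hT0A h) hxA⟩

/-! ### the stage -/

/-- the conclusion of `PHS.br` for the level `p.1 + 1` -/
def BProp (p : ℕ × List ℕ) (E : ℕ) : Prop :=
  ∀ (ι : Type) (F : (ι → Bool) → Lang) (R : ℕ),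
    (∀ w : List Bool, w.length < R → CertC R (fun v => F v w)) →
    ∀ x : List Bool, (x.length + 2) ^ E ≤ R →
      Lev (R ^ 2) (2 * (p.1 + 1)) (fun v => SL (p.1 + 1) p.2 (F v) x)

/-- the conclusion of the depth hierarchy theorem -/
def DProp (p : ℕ × List ℕ) (E M : ℕ) : Prop :=
  ∀ m ≥ M, ∀ (A : Type) [Fintype A] [DecidableEq A],
    Fintype.card A = 2 ^ m → ∀ F : (List A → Bool) → Bool,
      Lev (m ^ (16 * E)) (2 * (p.1 + 1)) F →
      ∃ v : List A → Bool, ¬ (F v = true ↔ Sip (2 * (p.1 + 1) + 1) v)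

theorem exists_constsB (dh : DepthHierarchy) : ∃ E M E' : ℕ × List ℕ → ℕ,
    (∀ p, BProp p (E p)) ∧ (∀ p, DProp p (E p) (M p)) ∧ ∀ p, EProp (p.1 + 1, p.2) (E' p) := by
  choose E h using fun p : ℕ × List ℕ => br (p.1 + 1) p.2
  choose M h' using fun p : ℕ × List ℕ => dh (2 * (p.1 + 1)) (16 * E p)
  choose E' h'' using fun p : ℕ × List ℕ => SL_congr (p.1 + 1) p.2
  exact ⟨E, M, E', h, h', h''⟩

theorem AS_finite (k m : ℕ) : (AS k m).Finite := by
  have h : Finite (X m) := inferInstanceAs (Finite (List.Vector Bool m))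
  have h2 : {l : List (X m) | l.length = 2 * k + 1}.Finite :=
    List.finite_length_eq (X m) (2 * k + 1)
  refine (h2.image fun l => saddr (slt k m) (flat l) true).subset ?_
  rintro w ⟨l, hl, rfl⟩
  exact ⟨l, hl, rfl⟩

theorem stagePB {p : ℕ × List ℕ} {E M : ℕ} (hB : BProp p E) (hD : DProp p E M) {n : ℕ → ℕ}
    (hn : StrictMono n) {s m N W : ℕ} (hnm : n s ≤ m) (hW : W < sl (n (s + 1)))
    (hWm : m ^ (4 * E) ≤ W) (hpow : (W + 2) ^ 8 < 2 ^ m) (hm3 : 3 ≤ m) (hM : M + 1 ≤ m)
    (hk1 : 2 * (p.1 + 1) + 1 ≤ m) (hN : (2 * (p.1 + 1) + 1) * m < N) (Y : Lang)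
    (hY : ∀ x : List Bool, sl m ≤ x.length → Y x = false) :
    ∃ Y' : Lang, Agree (sl m) Y Y' ∧
      (∀ x : List Bool, sl N ≤ x.length → Y' x = false) ∧
      PHW (p.1 + 1, p.2) m (mkO (RB n) Y') := by
  classical
  set k := p.1 + 1 with hk
  have hkpos : 1 ≤ k := by omega
  have hm1 : m ≤ (2 * k + 1) * m := Nat.le_mul_of_pos_left _ (by omega)
  have hA : ∀ a ∈ AS k m, sl m ≤ a.length := by
    intro a ha
    rw [AS_length ha]
    unfold sl
    omega
  have hA1 : ∀ a ∈ AS k m, sl (n s) ≤ a.length := by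
    intro a ha
    have := hA a ha
    unfold sl at *
    omega
  have hA2 : ∀ a ∈ AS k m, a.length < sl N := by
    intro a ha
    rw [AS_length ha]
    unfold sl
    omega
  obtain ⟨T0, R0, hT0A, hR0c, hR0A, hfr⟩ := freezeB hn hW Y (AS k m) (AS_finite k m) hA1
  obtain ⟨iX, hiX⟩ := exists_fintype_X m
  have hne : Nonempty (X m) := by
    rw [← Fintype.card_pos_iff, hiX]
    exact Nat.pow_pos (by norm_num)
  have hR0lt : R0.card ≤ 2 ^ (m - 1) ∧ R0.card < 2 ^ m := by
    have h4 : (W + 1) ^ 2 ≤ (W + 2) ^ 2 := Nat.pow_le_pow_left (by omega) 2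
    have h5 : W * W ≤ (W + 2) ^ 2 := by nlinarith
    have h6 : (W + 1) ^ 2 * (W * W) ≤ (W + 2) ^ 4 := by
      calc (W + 1) ^ 2 * (W * W) ≤ (W + 2) ^ 2 * (W + 2) ^ 2 := Nat.mul_le_mul h4 h5
        _ = (W + 2) ^ 4 := by ring
    have h8 : 2 * (W + 2) ^ 4 ≤ (W + 2) ^ 8 := by
      calc 2 * (W + 2) ^ 4 ≤ (W + 2) ^ 4 * (W + 2) ^ 4 := by
            apply Nat.mul_le_mul_right
            calc 2 ≤ W + 2 := by omega
              _ = (W + 2) ^ 1 := by ring
              _ ≤ (W + 2) ^ 4 := Nat.pow_le_pow_right (by omega) (by omega)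
        _ = (W + 2) ^ 8 := by ring
    have h9 : 2 ^ m = 2 * 2 ^ (m - 1) := by
      rw [← pow_succ']
      congr 1
      omega
    omega
  -- the address of a list
  set ad : List (X m) → List Bool := fun l => saddr (slt k m) (flat l) true with had
  have had_inj : ∀ l l' : List (X m), l.length = 2 * k + 1 → l'.length = 2 * k + 1 →
      ad l = ad l' → l = l' := by
    intro l l' hl hl' h
    have h4 := (addr_saddr_inj (length_flat' hl) (length_flat' hl') h).2.1
    exact flat_inj (hl.trans hl'.symm) h4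
  -- touched first blocks
  set F1 : Finset (X m) := Finset.univ.filter
    (fun a => ∃ l : List (X m), l.length = 2 * k ∧ ad (a :: l) ∈ R0) with hF1
  have hF1c : F1.card ≤ R0.card := by
    have h : ∀ a ∈ F1, ∃ l : List (X m), l.length = 2 * k ∧ ad (a :: l) ∈ R0 := by
      intro a ha
      exact (Finset.mem_filter.1 ha).2
    choose! g hg1 hg2 using h
    apply Finset.card_le_card_of_injOn (fun a => ad (a :: g a))
    · intro a ha
      exact hg2 a ha
    · intro a ha b hb h
      have h1 := had_inj _ _ (by rw [List.length_cons, hg1 a ha])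
        (by rw [List.length_cons, hg1 b hb]) h
      exact (List.cons.inj h1).1
  obtain ⟨S, hSsub, hScard⟩ : ∃ S ⊆ F1ᶜ, S.card = 2 ^ (m - 1) := by
    apply Finset.exists_subset_card_eq
    rw [Finset.card_compl, hiX]
    have h9 : 2 ^ m = 2 * 2 ^ (m - 1) := by
      rw [← pow_succ']
      congr 1
      omega
    omega
  have hS : ∀ (a : X m) (l : List (X m)), a ∈ S → l.length = 2 * k → ad (a :: l) ∉ R0 := by
    intro a l ha hl hR
    have h1 := hSsub ha
    rw [Finset.mem_compl] at h1
    exact h1 (Finset.mem_filter.2 ⟨Finset.mem_univ _, l, hl, hR⟩)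
  -- untouched answers
  have hβ : ∀ a : X m, ∃ b : X m, ∀ l : List (X m), l.length + 1 = 2 * k →
      ad (a :: b :: l) ∉ R0 := by
    intro a
    by_contra hcon
    push Not at hcon
    choose g hg1 hg2 using hcon
    have h1 : Fintype.card (X m) ≤ R0.card := by
      rw [← Finset.card_univ]
      apply Finset.card_le_card_of_injOn (fun b => ad (a :: b :: g b))
      · intro b _
        exact hg2 b
      · intro b _ b' _ h
        have h1 := had_inj _ _ (by rw [List.length_cons, List.length_cons, hg1 b])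
          (by rw [List.length_cons, List.length_cons, hg1 b']) h
        exact (List.cons.inj (List.cons.inj h1).2).1
    rw [hiX] at h1
    omega
  choose β hβ using hβ
  set g : List (X m) → Bool := fun l => match l with
    | a :: b :: l' => if b = β a then true else decide (ad (a :: b :: l') ∉ T0)
    | _ => true with hg
  have hgS : ∀ a, a ∉ S → Sip (2 * k) (fun l => g (a :: l)) := by
    intro a _
    obtain ⟨K, hK⟩ : ∃ K, 2 * k = K + 1 := ⟨2 * k - 1, by omega⟩
    rw [hK]
    refine ⟨β a, ?_⟩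
    have h1 : (fun l : List (X m) => g (a :: β a :: l)) = fun _ => decide (K % 2 = 1) := by
      funext l
      rw [hg]
      simp only [if_true]
      symm
      rw [decide_eq_true_iff]
      omega
    change ¬ Sip K (fun l => g (a :: β a :: l))
    rw [h1]
    exact (Sip_const K).2
  set fv : (List S → Bool) → List (X m) → Bool := fun v => fll S g (2 * k) v with hfv
  set TT : (List S → Bool) → Set (List Bool) := fun v =>
    {w | ∃ l : List (X m), l.length = 2 * k + 1 ∧ w = ad l ∧ fv v l = false} with hTT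
  have hTTA : ∀ v, TT v ⊆ AS k m := by
    rintro v w ⟨l, hl, rfl, -⟩
    exact ⟨l, hl, rfl⟩
  have hTTad : ∀ v (l : List (X m)), l.length = 2 * k + 1 → (ad l ∈ TT v ↔ fv v l = false) := by
    intro v l hl
    constructor
    · rintro ⟨l', hl', h1, h2⟩
      rwa [had_inj l l' hl hl' h1]
    · intro h
      exact ⟨l, hl, rfl, h⟩
  have hTTR : ∀ v, ∀ w ∈ R0, (w ∈ TT v ↔ w ∈ T0) := by
    intro v w hw
    obtain ⟨l, hl, rfl⟩ := hR0A w hw
    change ad l ∈ TT v ↔ ad l ∈ T0
    rw [hTTad v l hl]
    rcases l with _ | ⟨a, _ | ⟨b, l⟩⟩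
    · simp at hl
    · simp only [List.length_cons, List.length_nil] at hl
      omega
    · have haS : a ∉ S := by
        intro ha
        refine hS a (b :: l) ha ?_ hw
        rw [List.length_cons] at hl ⊢
        rw [List.length_cons] at hl
        omega
      have hb : b ≠ β a := by
        rintro rfl
        refine hβ a l ?_ hw
        rw [List.length_cons, List.length_cons] at hl
        omega
      have h1 : fv v (a :: b :: l) = decide (ad (a :: b :: l) ∉ T0) := by
        rw [hfv]
        simp only [fll]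
        rw [dif_neg haS, hg]
        simp only [if_neg hb]
      rw [h1, decide_eq_false_iff_not, not_not]
  have hoff : ∀ v, Agree (sl m) Y (wT Y (TT v)) := by
    intro v x hx
    exact (wT_off Y (fun h => by have := hA x (hTTA v h); omega)).symm
  have hvan : ∀ v (x : List Bool), sl N ≤ x.length → wT Y (TT v) x = false := by
    intro v x hx
    rw [wT_off Y (fun h => by have := hA2 x (hTTA v h); omega)]
    exact hY x (by unfold sl at *; omega)
  have hon : ∀ v (l : List (X m)), l.length = 2 * k + 1 →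
      mkO (RB n) (wT Y (TT v)) (saddr (slt k m) (flat l) true) = !fv v l := by
    intro v l hl
    rw [mkO_secret (RB_local n)]
    change wT Y (TT v) (ad l) = _
    have hYl : Y (ad l) = false := hY _ (hA _ ⟨l, hl, rfl⟩)
    cases hv : fv v l with
    | false => rw [wT_on Y ((hTTad v l hl).2 hv)]; rfl
    | true =>
      rw [wT_off Y (fun h => ?_), hYl]
      · rfl
      · rw [(hTTad v l hl).1 h] at hv
        exact Bool.noConfusion hv
  have hpos : 1 ≤ m ^ (4 * E) := Nat.one_le_pow _ _ (by omega)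
  have hlev := hB (List S) (fun v => mkO (RB n) (wT Y (TT v))) (m ^ (4 * E)) (by
      intro w hw
      by_cases hwA : w ∈ AS k m
      · obtain ⟨l, hl, rfl⟩ := hwA
        have h1 : (fun v => mkO (RB n) (wT Y (TT v)) (saddr (slt k m) (flat l) true)) =
            fun v => !fv v l := by
          funext v
          exact hon v l hl
        rw [h1]
        exact (fll_cert S g (2 * k) l _ hpos).not
      · intro v
        refine ⟨∅, Nat.zero_le _, fun v' _ => ?_⟩
        show mkO (RB n) (wT Y (TT v')) w = mkO (RB n) (wT Y (TT v)) w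
        rw [hfr _ (hTTA v') (hTTR v') w (by omega) hwA, hfr _ (hTTA v) (hTTR v) w (by omega) hwA])
    (wd k m) (by
      have h1 : (wd k m).length + 2 ≤ m ^ 4 := by
        rw [wd_length]
        have h3 : (2 * k + 1) * m ≤ m ^ 2 := by
          rw [pow_two]; exact Nat.mul_le_mul_right _ hk1
        have h4 : 9 ≤ m ^ 2 := by nlinarith
        have h5 : m ^ 4 = m ^ 2 * m ^ 2 := by ring
        have h6 : 9 * m ^ 2 ≤ m ^ 2 * m ^ 2 := Nat.mul_le_mul_right _ h4
        have h7 : m ≤ m ^ 2 := by nlinarith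
        omega
      rw [pow_mul]
      exact Nat.pow_le_pow_left h1 _)
  have hlev2 := hlev.mono (t := (m - 1) ^ (16 * E)) (by
    rw [← pow_mul, show 4 * E * 2 = 8 * E by ring, show 16 * E = 2 * (8 * E) by ring,
      pow_mul (m - 1)]
    apply Nat.pow_le_pow_left
    obtain ⟨j, rfl⟩ : ∃ j, m = j + 3 := ⟨m - 3, by omega⟩
    rw [show j + 3 - 1 = j + 2 by omega]
    nlinarith)
  obtain ⟨v, hv⟩ := hD (m - 1) (by omega) S (by rw [Fintype.card_coe]; exact hScard) _ hlev2
  refine ⟨wT Y (TT v), hoff v, hvan v, fun h => hv (h.trans ?_)⟩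
  rw [← Sip_fll S g (2 * k) hgS v]
  refine alt_Sip (2 * k + 1) _ (fv v) fun l hl => ?_
  have hlen := length_flat' (k := k) hl
  constructor
  · rintro hvl ⟨l', h1, h2⟩
    have h3 : l' = [] := List.length_eq_zero_iff.1 (by simp only at h1; omega)
    subst h3
    rw [List.append_nil] at h2
    have h4 := hon v l hl
    rw [hvl] at h4
    simp only at h2
    rw [h2] at h4
    exact Bool.noConfusion h4
  · intro h
    by_contra hvl
    rw [Bool.not_eq_true] at hvl
    refine h ⟨[], by rw [List.length_nil]; exact hlen.symm, ?_⟩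
    rw [List.append_nil]
    have h4 := hon v l hl
    rw [hvl] at h4
    exact h4

end Pool.Agent.PHR
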